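import Pool.Agent.T9h54.FF.Spec
import Pool.Agent.T9h65.LZ.E2

/-!
# Project FF, piece GP: good primes in a class
-/

set_option autoImplicit false

namespace Pool.Agent.T9h69.FF

open Finset Filter DirichletCharacter
open Pool.Agent.T9h54.FF Pool.Agent.T9h65.LZ

/-- a thin set has a convergent sum of `log n / n` -/
theorem summable_thin (B : Set ℕ) [DecidablePred (· ∈ B)] (hB0 : (0 : ℕ) ∉ B) (D e : ℝ)
    (he0 : 0 < e) (he1 : e < 1)
    (hc : ∀ n ∈ B, ((((range (n + 1)).filter (· ∈ B)).card : ℕ) : ℝ) ≤ D * (n : ℝ) ^ e) :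
    Summable fun n : B => Real.log (n : ℕ) / ((n : ℕ) : ℝ) := by
  set k : ℕ → ℕ := fun n => ((range (n + 1)).filter (· ∈ B)).card with hk
  have hmono : ∀ m n : ℕ, m < n → n ∈ B → k m < k n := by
    intro m n hmn hn
    apply card_lt_card
    rw [Finset.ssubset_iff_of_subset]
    · refine ⟨n, ?_, ?_⟩
      · rw [mem_filter, mem_range]; exact ⟨by omega, hn⟩
      · rw [mem_filter, mem_range]; omega
    · intro x hx
      rw [mem_filter, mem_range] at hx ⊢
      exact ⟨by omega, hx.2⟩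
  have hinj : Function.Injective fun n : B => k n := by
    intro m n hmn
    by_contra hne
    have hne' : (m : ℕ) ≠ n := fun h => hne (Subtype.ext h)
    rcases lt_or_gt_of_ne hne' with h | h
    · have := hmono m n h n.2
      have h2 : k m = k n := hmn
      omega
    · have := hmono n m h m.2
      have h2 : k m = k n := hmn
      omega
  obtain ⟨s, hs⟩ : ∃ s : ℝ, s = (1 + e) / (2 * e) := ⟨_, rfl⟩
  have hs1 : 1 < s := by
    rw [hs, lt_div_iff₀ (by linarith)]
    linarith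
  obtain ⟨η, hη⟩ : ∃ η : ℝ, η = (1 - e) / 2 := ⟨_, rfl⟩
  have hη0 : 0 < η := by rw [hη]; linarith
  have hes : e * s = 1 - η := by rw [hs, hη]; field_simp; ring
  obtain ⟨D', hD'⟩ : ∃ D' : ℝ, D' = max D 1 := ⟨_, rfl⟩
  have hD1 : 1 ≤ D' := by rw [hD']; exact le_max_right _ _
  have hDD : D ≤ D' := by rw [hD']; exact le_max_left _ _
  have hg : Summable fun j : ℕ => 1 / η * D' ^ s * (j : ℝ) ^ (-s) :=
    (Real.summable_nat_rpow.mpr (by linarith)).mul_left _
  have hg2 : Summable fun n : B => 1 / η * D' ^ s * ((k n : ℕ) : ℝ) ^ (-s) :=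
    hg.comp_injective hinj
  refine Summable.of_nonneg_of_le (fun n => ?_) (fun n => ?_) hg2
  · exact div_nonneg (Real.log_natCast_nonneg _) (Nat.cast_nonneg _)
  · have hn0 : (n : ℕ) ≠ 0 := fun h => hB0 (h ▸ n.2)
    have hnR : (0 : ℝ) < (n : ℕ) := by exact_mod_cast Nat.pos_of_ne_zero hn0
    have hk1 : 1 ≤ k n := by
      apply Finset.card_pos.mpr
      exact ⟨(n : ℕ), by rw [mem_filter, mem_range]; exact ⟨by omega, n.2⟩⟩
    have hkR : (1 : ℝ) ≤ (k n : ℕ) := by exact_mod_cast hk1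
    have h1 : ((k n : ℕ) : ℝ) ≤ D' * ((n : ℕ) : ℝ) ^ e :=
      (hc n n.2).trans (mul_le_mul_of_nonneg_right hDD (by positivity))
    have h2 : ((k n : ℕ) : ℝ) ^ s ≤ D' ^ s * ((n : ℕ) : ℝ) ^ (1 - η) := by
      calc ((k n : ℕ) : ℝ) ^ s ≤ (D' * ((n : ℕ) : ℝ) ^ e) ^ s :=
            Real.rpow_le_rpow (by positivity) h1 (by linarith)
        _ = D' ^ s * ((n : ℕ) : ℝ) ^ (1 - η) := by
            rw [Real.mul_rpow (by positivity) (by positivity), ← Real.rpow_mul hnR.le, hes]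
    have h3 : Real.log (n : ℕ) ≤ ((n : ℕ) : ℝ) ^ η / η := Real.log_le_rpow_div hnR.le hη0
    have h4 : (0 : ℝ) < ((k n : ℕ) : ℝ) ^ s := by positivity
    rw [Real.rpow_neg (by positivity), div_le_iff₀ hnR]
    have h5 : ((n : ℕ) : ℝ) ^ η / η = 1 / η * ((n : ℕ) : ℝ) ^ η := by ring
    rw [h5] at h3
    have h6 : ((n : ℕ) : ℝ) ^ η ≤ D' ^ s * (((k n : ℕ) : ℝ) ^ s)⁻¹ * ((n : ℕ) : ℝ) := by
      have h7 : ((n : ℕ) : ℝ) = ((n : ℕ) : ℝ) ^ (1 - η) * ((n : ℕ) : ℝ) ^ η := by
        rw [← Real.rpow_add hnR]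
        simp
      have h8 : 1 ≤ D' ^ s * ((n : ℕ) : ℝ) ^ (1 - η) * (((k n : ℕ) : ℝ) ^ s)⁻¹ := by
        rw [← div_eq_mul_inv, le_div_iff₀ h4, one_mul]
        exact h2
      calc ((n : ℕ) : ℝ) ^ η = 1 * ((n : ℕ) : ℝ) ^ η := (one_mul _).symm
        _ ≤ (D' ^ s * ((n : ℕ) : ℝ) ^ (1 - η) * (((k n : ℕ) : ℝ) ^ s)⁻¹) * ((n : ℕ) : ℝ) ^ η :=
            mul_le_mul_of_nonneg_right h8 (by positivity)
        _ = D' ^ s * (((k n : ℕ) : ℝ) ^ s)⁻¹ *
            (((n : ℕ) : ℝ) ^ (1 - η) * ((n : ℕ) : ℝ) ^ η) := by ring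
        _ = D' ^ s * (((k n : ℕ) : ℝ) ^ s)⁻¹ * ((n : ℕ) : ℝ) := by rw [← h7]
    calc Real.log (n : ℕ) ≤ 1 / η * ((n : ℕ) : ℝ) ^ η := h3
      _ ≤ 1 / η * (D' ^ s * (((k n : ℕ) : ℝ) ^ s)⁻¹ * ((n : ℕ) : ℝ)) :=
          mul_le_mul_of_nonneg_left h6 (by positivity)
      _ = 1 / η * D' ^ s * (((k n : ℕ) : ℝ) ^ s)⁻¹ * ((n : ℕ) : ℝ) := by ring

theorem gp : S_E1G → S_GP := by
  classical
  intro hE q M _ _ b ρ h56 h1' hb K
  by_contra hcon
  push Not at hcon
  have hρ : 0 < ρ.re := by linarith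
  have hρ1 : ρ ≠ 1 := by
    rintro rfl
    simp at h1'
  have hx1 : 8 * (1 - ρ.re) / (3 - 2 * ρ.re) < 1 := by
    rw [div_lt_one (by linarith)]
    linarith
  have hx0 : 0 < 8 * (1 - ρ.re) / (3 - 2 * ρ.re) := div_pos (by linarith) (by linarith)
  obtain ⟨e, he⟩ : ∃ e : ℝ, e = (8 * (1 - ρ.re) / (3 - 2 * ρ.re) + 1) / 2 := ⟨_, rfl⟩
  have he0 : 0 < e := by rw [he]; linarith
  have he1 : e < 1 := by rw [he]; linarith
  have hex : 8 * (1 - ρ.re) / (3 - 2 * ρ.re) < e := by rw [he]; linarith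
  obtain ⟨C, hC⟩ := hE ρ e (by linarith) h1' hex
  have hM0 : 0 < M := Nat.pos_of_ne_zero (NeZero.ne M)
  -- the exceptional levels
  have key : ∀ P : ℕ, P.Prime → K < P → M < P → P ≡ b [MOD q] →
      ∃ r, P ∣ r + 1 ∧ r + 1 ∣ M * P ∧ 1 ≤ nn ρ r := by
    intro P hP hKP hMP hPb
    have hPM : ¬ P ∣ M := fun h => by
      have := Nat.le_of_dvd hM0 h
      omega
    obtain ⟨inst, χ, hχ, hψ⟩ := hcon P hP hKP hPM hPb
    have hc : P ∣ χ.conductor := by
      by_contra hc
      have h1 : Nat.Coprime χ.conductor P := ((Nat.Prime.coprime_iff_not_dvd hP).2 hc).symm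
      have h2 : χ.conductor ∣ M := h1.dvd_of_dvd_mul_right χ.conductor_dvd_level
      have h3 : FactorsThrough χ M :=
        (mem_conductorSet_iff_conductor_dvd χ (Dvd.intro P rfl : M ∣ M * P)).2 h2
      exact hψ h3.χ₀ h3.eq_changeLevel
    have h0 : χ.conductor ≠ 0 := conductor_ne_zero χ
    obtain ⟨r, hr⟩ : ∃ r, χ.conductor = r + 1 := ⟨χ.conductor - 1, by omega⟩
    have hf : FactorsThrough χ (r + 1) := hr ▸ factorsThrough_conductor χ
    have hdvd : r + 1 ∣ M * P := hf.dvd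
    refine ⟨r, hr ▸ hc, hdvd, ?_⟩
    have hmem : hf.χ₀ ∈ {χ : DirichletCharacter ℂ (r + 1) |
        χ.IsPrimitive ∧ DirichletCharacter.LFunction χ ρ = 0} := by
      refine ⟨?_, ?_⟩
      · rw [isPrimitive_def]
        have a1 := conductor_changeLevel hf.χ₀ hdvd
        have a2 : conductor (changeLevel hdvd hf.χ₀) = conductor χ :=
          congrArg conductor hf.eq_changeLevel.symm
        rw [← a1, a2, hr]
      · rw [← zero_iff hdvd hf.χ₀ hρ hρ1, ← hf.eq_changeLevel]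
        exact hχ
    exact Nat.one_le_iff_ne_zero.mpr ((Set.ncard_pos (Set.toFinite _)).mpr ⟨_, hmem⟩).ne'
  set B : Set ℕ := {P | P.Prime ∧ K < P ∧ M < P ∧ P ≡ b [MOD q]} with hB
  choose! r hr using fun (P : ℕ) (hP : P ∈ B) => key P hP.1 hP.2.1 hP.2.2.1 hP.2.2.2
  have hinj : ∀ P ∈ B, ∀ P' ∈ B, r P = r P' → P = P' := by
    intro P hP P' hP' h
    have h1 : P ∣ M * P' := by
      have h2 := (hr P hP).1
      rw [h] at h2
      exact h2.trans (hr P' hP').2.1
    rcases (Nat.Prime.dvd_mul hP.1).1 h1 with h2 | h2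
    · have := Nat.le_of_dvd hM0 h2
      have := hP.2.2.1
      omega
    · exact (Nat.prime_dvd_prime_iff_eq hP.1 hP'.1).1 h2
  -- counting
  have hcount : ∀ n ∈ B, ((((range (n + 1)).filter (· ∈ B)).card : ℕ) : ℝ) ≤
      (|C| * (M : ℝ) ^ e) * (n : ℝ) ^ e := by
    intro n hn
    have hn0 : 0 < n := hn.1.pos
    have h1 : ((range (n + 1)).filter (· ∈ B)).card ≤
        ((range (M * n)).filter fun j => 1 ≤ nn ρ j).card := by
      refine Finset.card_le_card_of_injOn r ?_ ?_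
      · intro P hP
        rw [mem_coe, mem_filter, mem_range] at hP
        rw [mem_coe, mem_filter, mem_range]
        obtain ⟨-, h3, h4⟩ := hr P hP.2
        refine ⟨?_, h4⟩
        have h5 : r P + 1 ≤ M * P := Nat.le_of_dvd (Nat.mul_pos hM0 hP.2.1.pos) h3
        have h6 : M * P ≤ M * n := Nat.mul_le_mul_left M (by omega)
        omega
      · intro P hP P' hP' h
        rw [mem_coe, mem_filter] at hP hP'
        exact hinj P hP.2 P' hP'.2 h
    have h2 : ((range (M * n)).filter fun j => 1 ≤ nn ρ j).card ≤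
        ∑ j ∈ range (M * n), nn ρ j := by
      rw [Finset.card_eq_sum_ones]
      calc ∑ j ∈ (range (M * n)).filter (fun j => 1 ≤ nn ρ j), 1
          ≤ ∑ j ∈ (range (M * n)).filter (fun j => 1 ≤ nn ρ j), nn ρ j :=
            sum_le_sum fun j hj => (mem_filter.1 hj).2
        _ ≤ ∑ j ∈ range (M * n), nn ρ j := sum_le_sum_of_subset (filter_subset _ _)
    have h3 : ∑ j ∈ range (M * n), (nn ρ j : ℝ) ≤ C * ((M * n : ℕ) : ℝ) ^ e :=
      hC (M * n) (Nat.mul_pos hM0 hn0)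
    have h4 : ((((range (n + 1)).filter (· ∈ B)).card : ℕ) : ℝ) ≤
        ∑ j ∈ range (M * n), (nn ρ j : ℝ) := by
      exact_mod_cast h1.trans h2
    refine (h4.trans h3).trans ?_
    rw [Nat.cast_mul, Real.mul_rpow (by positivity) (by positivity), ← mul_assoc]
    refine mul_le_mul_of_nonneg_right ?_ (by positivity)
    exact mul_le_mul_of_nonneg_right (le_abs_self C) (by positivity)
  have hB0 : (0 : ℕ) ∉ B := fun h => Nat.not_prime_zero h.1
  have hsum := summable_thin B hB0 _ e he0 he1 hcount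
  have hunit : IsUnit (b : ZMod q) := (ZMod.isUnit_iff_coprime b q).mpr hb
  apply ArithmeticFunction.vonMangoldt.not_summable_residueClass_prime_div hunit
  have hsum2 : Summable (B.indicator fun n : ℕ => Real.log n / (n : ℝ)) :=
    summable_subtype_iff_indicator.mp hsum
  refine Summable.of_norm_bounded_eventually_nat hsum2 ?_
  filter_upwards [eventually_gt_atTop (K + M)] with n hn
  by_cases hp : n.Prime
  · rw [if_pos hp]
    by_cases hnb : (n : ZMod q) = b
    · have hnB : n ∈ B := by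
        refine ⟨hp, by omega, by omega, ?_⟩
        exact (ZMod.natCast_eq_natCast_iff n b q).mp hnb
      rw [Set.indicator_of_mem hnB]
      have h1 : ArithmeticFunction.vonMangoldt.residueClass (b : ZMod q) n = Real.log n := by
        rw [ArithmeticFunction.vonMangoldt.residueClass, Set.indicator_of_mem
          (show n ∈ {n : ℕ | (n : ZMod q) = b} from hnb),
          ArithmeticFunction.vonMangoldt_apply_prime hp]
      rw [h1, Real.norm_of_nonneg (div_nonneg (Real.log_natCast_nonneg _) (Nat.cast_nonneg _))]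
    · have h1 : ArithmeticFunction.vonMangoldt.residueClass (b : ZMod q) n = 0 := by
        rw [ArithmeticFunction.vonMangoldt.residueClass]
        exact Set.indicator_of_notMem (show n ∉ {n : ℕ | (n : ZMod q) = b} from hnb) _
      rw [h1, zero_div, norm_zero]
      exact Set.indicator_nonneg (fun x _ =>
        div_nonneg (Real.log_natCast_nonneg _) (Nat.cast_nonneg _)) n
  · rw [if_neg hp, zero_div, norm_zero]
    exact Set.indicator_nonneg (fun x _ =>
      div_nonneg (Real.log_natCast_nonneg _) (Nat.cast_nonneg _)) n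

end Pool.Agent.T9h69.FF
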