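import Pool.Agent.T9h54.FF.Spec2
import Pool.Agent.T9h69.FF.Gp

/-!
# Project FF, piece DC: the sum of the reciprocals of the conductors converges
-/

set_option autoImplicit false

namespace Pool.Agent.T9h69.FF

open Finset Filter DirichletCharacter
open Pool.Agent.T9h54.FF Pool.Agent.T9h65.LZ

open Classical in
/-- the sum of the reciprocals of the conductors of the primitive characters vanishing at `ρ` -/
theorem summable_RR (hE : S_E1G) (ρ : ℂ) (h56 : 5 / 6 < ρ.re) (h1' : ρ.re < 1) :
    Summable fun r : ℕ => if RR ρ r then 1 / (r : ℝ) else 0 := by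
  have hx1 : 8 * (1 - ρ.re) / (3 - 2 * ρ.re) < 1 := by
    rw [div_lt_one (by linarith)]
    linarith
  have hx0 : 0 < 8 * (1 - ρ.re) / (3 - 2 * ρ.re) := div_pos (by linarith) (by linarith)
  obtain ⟨e, he⟩ : ∃ e : ℝ, e = (8 * (1 - ρ.re) / (3 - 2 * ρ.re) + 1) / 2 := ⟨_, rfl⟩
  have he0 : 0 < e := by rw [he]; linarith
  have he1 : e < 1 := by rw [he]; linarith
  have hex : 8 * (1 - ρ.re) / (3 - 2 * ρ.re) < e := by rw [he]; linarith
  obtain ⟨C, hC⟩ := hE ρ e (by linarith) h1' hex
  set B : Set ℕ := {r | 3 ≤ r ∧ RR ρ r} with hB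
  have hcount : ∀ n ∈ B, ((((range (n + 1)).filter (· ∈ B)).card : ℕ) : ℝ) ≤
      C * (n : ℝ) ^ e := by
    intro n hn
    have h1 : ((range (n + 1)).filter (· ∈ B)).card ≤
        ((range n).filter fun j => 1 ≤ nn ρ j).card := by
      refine Finset.card_le_card_of_injOn (fun r => r - 1) ?_ ?_
      · intro r hr
        rw [mem_coe, mem_filter, mem_range] at hr
        obtain ⟨hr1, hr3, inst, χ, hp, hL⟩ := hr
        obtain ⟨j, rfl⟩ : ∃ j, r = j + 1 := ⟨r - 1, by omega⟩
        rw [mem_coe, mem_filter, mem_range]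
        simp only [Nat.add_sub_cancel]
        refine ⟨by omega, ?_⟩
        have hmem : χ ∈ {χ : DirichletCharacter ℂ (j + 1) |
            χ.IsPrimitive ∧ DirichletCharacter.LFunction χ ρ = 0} := ⟨hp, hL⟩
        exact Nat.one_le_iff_ne_zero.mpr ((Set.ncard_pos (Set.toFinite _)).mpr ⟨_, hmem⟩).ne'
      · intro r hr r' hr' h
        rw [mem_coe, mem_filter] at hr hr'
        have h3 := hr.2.1
        have h4 := hr'.2.1
        simp only at h
        omega
    have h2 : ((range n).filter fun j => 1 ≤ nn ρ j).card ≤ ∑ j ∈ range n, nn ρ j := by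
      rw [Finset.card_eq_sum_ones]
      calc ∑ j ∈ (range n).filter (fun j => 1 ≤ nn ρ j), 1
          ≤ ∑ j ∈ (range n).filter (fun j => 1 ≤ nn ρ j), nn ρ j :=
            sum_le_sum fun j hj => (mem_filter.1 hj).2
        _ ≤ ∑ j ∈ range n, nn ρ j := sum_le_sum_of_subset (filter_subset _ _)
    have h3 : ∑ j ∈ range n, (nn ρ j : ℝ) ≤ C * (n : ℝ) ^ e :=
      hC n (by have := hn.1; omega)
    refine le_trans ?_ h3
    exact_mod_cast h1.trans h2
  have hB0 : (0 : ℕ) ∉ B := fun h => by
    have := h.1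
    omega
  have hsum := summable_thin B hB0 _ e he0 he1 hcount
  have hsum2 : Summable (B.indicator fun n : ℕ => Real.log n / (n : ℝ)) :=
    summable_subtype_iff_indicator.mp hsum
  refine Summable.of_norm_bounded_eventually_nat hsum2 ?_
  filter_upwards [eventually_gt_atTop 3] with n hn
  by_cases hr : RR ρ n
  · rw [if_pos hr, Set.indicator_of_mem (show n ∈ B from ⟨hn.le, hr⟩),
      Real.norm_of_nonneg (by positivity)]
    refine div_le_div_of_nonneg_right ?_ (Nat.cast_nonneg _)
    rw [← Real.log_exp 1]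
    refine Real.log_le_log (Real.exp_pos 1) ?_
    have h5 : (3 : ℝ) < n := by exact_mod_cast hn
    have := Real.exp_one_lt_d9
    linarith
  · rw [if_neg hr, norm_zero]
    exact Set.indicator_nonneg (fun x _ =>
      div_nonneg (Real.log_natCast_nonneg _) (Nat.cast_nonneg _)) n

/-- (DC) -/
theorem dc : S_E1G → S_DC := by
  classical
  intro hE ρ h56 h1 M hM
  have hs := summable_RR hE ρ h56 h1
  have h2 : ∀ e ∈ M.divisors, Summable fun d : ℕ =>
      if RR ρ (d * e) then 1 / (d : ℝ) else 0 := by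
    intro e he
    have he0 : 0 < e := Nat.pos_of_mem_divisors he
    have he' : (e : ℝ) ≠ 0 := by exact_mod_cast he0.ne'
    have h3 := (hs.comp_injective (i := fun d : ℕ => d * e)
      (fun a b h => Nat.eq_of_mul_eq_mul_right he0 h)).mul_left (e : ℝ)
    refine h3.congr ?_
    intro d
    simp only [Function.comp]
    split_ifs
    · push_cast
      by_cases hd : d = 0
      · simp [hd]
      · have hd' : (d : ℝ) ≠ 0 := by exact_mod_cast hd
        field_simp
    · simp
  have h4 := summable_sum h2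
  refine Summable.of_nonneg_of_le (fun d => by split_ifs <;> positivity) (fun d => ?_) h4
  have h5 : ∀ e ∈ M.divisors, (0 : ℝ) ≤ if RR ρ (d * e) then 1 / (d : ℝ) else 0 := by
    intro e _
    split_ifs <;> positivity
  split_ifs with h
  · obtain ⟨e, he, hr⟩ := h
    have h6 := single_le_sum (f := fun e => if RR ρ (d * e) then 1 / (d : ℝ) else 0) h5
      (Nat.mem_divisors.2 ⟨he, hM⟩)
    simp only [if_pos hr] at h6
    exact h6
  · exact sum_nonneg h5

end Pool.Agent.T9h69.FF
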